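import Pool.Agent.Lib.MP_3240be_co.H51.Defs

/-!
# Row TYP of the board TREES (MP_3240be_co): (I.3) and (I.4), set combinatorics
-/

set_option autoImplicit false

namespace MP3240T

open Finset

/-- A set of `h` elements of `A ∪ B` that misses `B` is `A`, if `A` has `h` elements. -/
theorem typ_eq_of_disj {V : Type} {h : ℕ} {R A B : Finset V} (hR : R.card = h) (hA : A.card = h)
    (hsub : ∀ x ∈ R, x ∈ A ∨ x ∈ B) (hd : ∀ x ∈ R, x ∉ B) : R = A := by
  apply Finset.eq_of_subset_of_card_le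
  · intro x hx
    rcases hsub x hx with h1 | h1
    · exact h1
    · exact absurd h1 (hd x hx)
  · rw [hR, hA]

/-- (I.3): a hub set is full in one of the two colours. -/
theorem typ_full {V : Type} {h : ℕ} (Rf Bf : Finset V → Prop) (Y : Finset V) (P : Fin 3 → Finset V)
    (hRR : ∀ R R', R.card = h → R'.card = h → Rf R → Rf R' → R ≠ R' → Disjoint R R')
    (hBB : ∀ R R', R.card = h → R'.card = h → Bf R → Bf R' → R ≠ R' → Disjoint R R')
    (hY : Y.card = h) (hP : ∀ j, (P j).card = h)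
    (hPP : ∀ j j', j ≠ j' → Disjoint (P j) (P j')) (hYP : ∀ j, Disjoint Y (P j))
    (hs : ∀ j, ∃ R C : Finset V, R.card = h ∧ C.card = h ∧ Rf R ∧ Bf C ∧ Disjoint R C ∧
      (∀ x, x ∈ R ∨ x ∈ C ↔ x ∈ Y ∨ x ∈ P j)) : Rf Y ∨ Bf Y := by
  by_contra hcon
  push Not at hcon
  obtain ⟨hnR, hnB⟩ := hcon
  choose R C hRc hCc hRf hBf hdis hun using hs
  have hYP' : ∀ j, ∀ x, x ∈ Y → x ∈ P j → False := fun j x h1 h2 =>
    Finset.disjoint_left.1 (hYP j) h1 h2
  have hPP' : ∀ j j', j ≠ j' → ∀ x, x ∈ P j → x ∈ P j' → False := fun j j' hj x h1 h2 =>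
    Finset.disjoint_left.1 (hPP j j' hj) h1 h2
  have hdis' : ∀ j, ∀ x, x ∈ R j → x ∈ C j → False := fun j x h1 h2 =>
    Finset.disjoint_left.1 (hdis j) h1 h2
  -- every `R j` is neither `Y` nor contained in `P j`
  have hRY : ∀ j, ∃ x ∈ R j, x ∈ Y := by
    intro j
    by_contra hno
    push Not at hno
    have hRP : R j = P j := typ_eq_of_disj (hRc j) (hP j)
      (fun x hx => ((hun j x).1 (Or.inl hx)).symm) hno
    have hCY : C j = Y := by
      refine typ_eq_of_disj (B := P j) (hCc j) hY (fun x hx => (hun j x).1 (Or.inr hx)) ?_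
      intro x hx hxP
      rw [← hRP] at hxP
      exact hdis' j x hxP hx
    exact hnB (hCY ▸ hBf j)
  have hRP : ∀ j, ∃ x ∈ R j, x ∈ P j := by
    intro j
    by_contra hno
    push Not at hno
    have : R j = Y := typ_eq_of_disj (hRc j) hY (fun x hx => (hun j x).1 (Or.inl hx)) hno
    exact hnR (this ▸ hRf j)
  have hCP : ∀ j, ∃ x ∈ C j, x ∈ P j := by
    intro j
    by_contra hno
    push Not at hno
    have : C j = Y := typ_eq_of_disj (hCc j) hY (fun x hx => (hun j x).1 (Or.inr hx)) hno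
    exact hnB (this ▸ hBf j)
  have hRd : ∀ j j', j ≠ j' → Disjoint (R j) (R j') := by
    intro j j' hj
    apply hRR _ _ (hRc j) (hRc j') (hRf j) (hRf j')
    intro heq
    obtain ⟨x, hx, hxP⟩ := hRP j
    rw [heq] at hx
    rcases (hun j' x).1 (Or.inl hx) with h1 | h1
    · exact hYP' j x h1 hxP
    · exact hPP' j j' hj x hxP h1
  have hCd : ∀ j j', j ≠ j' → Disjoint (C j) (C j') := by
    intro j j' hj
    apply hBB _ _ (hCc j) (hCc j') (hBf j) (hBf j')
    intro heq
    obtain ⟨x, hx, hxP⟩ := hCP j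
    rw [heq] at hx
    rcases (hun j' x).1 (Or.inr hx) with h1 | h1
    · exact hYP' j x h1 hxP
    · exact hPP' j j' hj x hxP h1
  obtain ⟨y, hy0, hyY⟩ := hRY 0
  have hy1 : y ∈ C 1 := by
    rcases (hun 1 y).2 (Or.inl hyY) with h1 | h1
    · exact absurd h1 (Finset.disjoint_left.1 (hRd 0 1 (by decide)) hy0)
    · exact h1
  have hy2 : y ∈ C 2 := by
    rcases (hun 2 y).2 (Or.inl hyY) with h1 | h1
    · exact absurd h1 (Finset.disjoint_left.1 (hRd 0 2 (by decide)) hy0)
    · exact h1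
  exact Finset.disjoint_left.1 (hCd 1 2 (by decide)) hy1 hy2

/-- Row TYP. -/
theorem typ_proof : TypStatement := by
  intro V h Rf Bf Y P hh hRR hBB hY hP hPP hYP hmeet hne hs
  have hfull : ∀ s, Rf (Y s) ∨ Bf (Y s) := fun s =>
    typ_full Rf Bf (Y s) (P s) hRR hBB (hY s) (hP s) (hPP s) (fun j => hYP s s j) (hs s)
  have hR : ∀ i, Rf (Y none) → ¬ Rf (Y (some i)) := fun i h1 h2 =>
    hmeet i (hRR _ _ (hY _) (hY _) h1 h2 (hne i))
  have hB : ∀ i, Bf (Y none) → ¬ Bf (Y (some i)) := fun i h1 h2 =>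
    hmeet i (hBB _ _ (hY _) (hY _) h1 h2 (hne i))
  by_cases hn : Rf (Y none)
  · right
    have hall : ∀ i, Bf (Y (some i)) := fun i => (hfull (some i)).resolve_left (hR i hn)
    refine ⟨hn, ?_, hall⟩
    intro hb
    exact hB ⟨0, by omega⟩ hb (hall _)
  · left
    have hb : Bf (Y none) := (hfull none).resolve_left hn
    exact ⟨hb, hn, fun i => (hfull (some i)).resolve_right (hB i hb)⟩

end MP3240T
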